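import Pool.Agent.H99.StrV

/-!
Integral test for the escape rate of the stationary pinned string in dimension at least 7.

The exponent is `C = d - 6`. The convergence half uses a small ball bound on space-time cells
(dyadic chaining for the residual after projecting on the corner of the cell), the divergence half a
second moment computation over grids of space-time points, with sharp decorrelation between scales.
-/

open MeasureTheory ProbabilityTheory Set Filter
open scoped NNReal ENNReal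

universe u

namespace Pool.Agent.Results.MP_e113db_pr.EscapeRate

open Pool.Agent.H99.Str

/-- Integral test for the stationary pinned string: for every `d ≥ 7` the exponent `C = d - 6`
works for all nondecreasing positive `f`. -/
theorem result : ∀ d : ℕ, 7 ≤ d → ∃ C : ℝ, 0 < C ∧ C = (d : ℝ) - 6 ∧
    ∀ (Ω : Type u) [MeasurableSpace Ω] (P : Measure Ω) [IsProbabilityMeasure P]
      (U : ℝ≥0 → ℝ → Ω → EuclideanSpace ℝ (Fin d)), IsPinnedString d U P →
    ∀ f : ℝ → ℝ, MonotoneOn f (Ioi 0) → (∀ t, 0 < t → 0 < f t) →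
      ((∫⁻ t in Ioi (1:ℝ), ENNReal.ofReal ((f t / t ^ (1/4 : ℝ)) ^ C / t) < ∞ ↔
          ∀ᵐ ω ∂P, liminf (fun t : ℝ≥0 => (((⨅ x : ℝ, ‖U t x ω‖) / f t : ℝ) : EReal)) atTop = ⊤) ∧
        (∫⁻ t in Ioi (1:ℝ), ENNReal.ofReal ((f t / t ^ (1/4 : ℝ)) ^ C / t) = ∞ →
          ∀ᵐ ω ∂P, liminf (fun t : ℝ≥0 => (((⨅ x : ℝ, ‖U t x ω‖) / f t : ℝ) : EReal)) atTop = 0)) := by
  intro d hd
  have hd' : (7:ℝ) ≤ d := by exact_mod_cast hd
  refine ⟨(d : ℝ) - 6, by linarith, rfl, ?_⟩
  intro Ω _ P _ U hU f hf hf0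
  have hC : (d : ℝ) - 6 = ((d - 6 : ℕ) : ℝ) := by
    rw [Nat.cast_sub (by omega)]; norm_num
  rw [hC]
  have hdiv : ∫⁻ t in Ioi (1:ℝ), ENNReal.ofReal ((f t / t ^ (1/4 : ℝ)) ^ (((d - 6 : ℕ) : ℝ)) / t) = ∞ →
      ∀ᵐ ω ∂P, liminf (fun t : ℝ≥0 => (((⨅ x : ℝ, ‖U t x ω‖) / f t : ℝ) : EReal)) atTop = 0 :=
    fun h => div_half hd hU hf hf0 h
  refine ⟨⟨fun h => ?_, fun h => ?_⟩, hdiv⟩
  · exact conv_half hd hU hf hf0 (series_of_escInt hf hf0 (d - 6) h.ne)
  · rw [lt_top_iff_ne_top]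
    intro htop
    have h0 := hdiv htop
    have hF : ∀ᵐ _ω ∂P, False := by
      filter_upwards [h, h0] with ω h1 h2
      rw [h1] at h2
      exact absurd h2 (by simp)
    rw [eventually_false_iff_eq_bot, ae_eq_bot] at hF
    exact IsProbabilityMeasure.ne_zero P hF

end Pool.Agent.Results.MP_e113db_pr.EscapeRate
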